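import Mathlib
import Pool.Agent.W527.DominantTate

/-!
# The Mumford-Tate conjecture from one Frobenius element with a dominant slope

Let `A` be an abelian variety over a finitely generated subfield of the complex numbers.  Suppose
that for ONE closed point `v` of good reduction, with residue field of `p ^ a` elements, the
characteristic polynomial of the Frobenius element is the minimal polynomial of a Weil number `π`
which generates a CM field `K`, such that

* at ONE pair of conjugate embeddings of `K` into an algebraic closure of `ℚ_p` the distance of the
  slope of `π` from the middle slope `a / 2` is at least as large as the sum of the distances at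
  all other pairs of conjugate embeddings; or at most two pairs of conjugate embeddings have a slope
  different from `a / 2`;
* for no CM subfield `F` of `K` the norm of `π` to `F` is supersingular (`unitNorm`, that is
  `N(π) ^ 2 / p ^ (a [K : F])`, is not a root of unity).

There is no condition on the dimension, the degree, the Galois group and the ramification of `K`.
For example, the reduction has `p`-rank one or two and all other slopes are `1 / 2`; or it has
`p`-rank one, the slopes `n / (2 n + 1)` and `(n + 1) / (2 n + 1)`, each `2 n + 1` times, and all
other slopes are `1 / 2`.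

Then all Tate classes in the tensor powers of `H^1` are linear combinations of Hodge classes, and
even of products of Hodge classes of degree two.  Together with the theorem of Deligne (Hodge classes
are Tate classes) this is the equality of the Mumford-Tate group (over `ℚ_ℓ`) and of the connected
component of the `ℓ`-adic monodromy group: both are reductive (Faltings), so that they are
determined by their invariants in the spaces `(H^1)^{⊗ 2 m}(m)`.  So the equality holds for all
motives in the tannakian category generated by `H^1(A)`.

The main point of the proof (`Pool.Agent.W527.free_of_dominant`): a multiplicative relation between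
the conjugates of `π` gives an odd function `c` on the embeddings of `K` with
`∑ w(φ) c(g φ) = 0` for all `g` in the Galois group, where `w` is the distance of the slope from the
middle.  Where `|c|` has its largest value there is equality in the triangle inequality; this
determines the signs, and `c` restricted to the places of the largest value comes from a CM subfield
to which the norm of `π` is supersingular.

In the Lean statement `W` is `H_1(A, ℚ)`, `T` the tangent space at the origin and `per : W → T` the
inclusion, `ω₀` is the form given by a polarization; `V` is the rational Tate module with the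
comparison map `comp : W → V`, the action `ρ` of the Galois group and the Weil pairing `ω`; `χ` is
the cyclotomic character and `γ` the Frobenius element at `v`.  The hypotheses `hss` and `hF` are the
theorems of Faltings.
-/

namespace Pool.Agent.Results.MP_de8692_ag.DominantSlope

open NumberField Module Pool.Agent.H204R3.GP Pool.Agent.H204R3.SP IntermediateField
  Pool.Agent.W527

theorem result (ℓ p : ℕ) [Fact ℓ.Prime] [Fact p.Prime] (a : ℕ) (ha : 0 < a)
    -- the Weil number
    {K : Type} [Field K] [NumberField K] [IsCMField K] (π : K) (hint : IsIntegral ℤ π)
    (hgen : ℚ⟮π⟯ = ⊤) (hweil : π * IsCMField.complexConj K π = (p : K) ^ a)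
    (hslope : DominantSlope p a π ∨
      {τ : K →+* PadicAlgCl p | ‖τ π‖ ^ 2 ≠ ((p : ℝ) ^ a)⁻¹}.ncard ≤ 4)
    (hnorm : ∀ F : IntermediateField ℚ K, ¬ IsTotallyReal F → ∀ n : ℕ, 0 < n →
      Norm.unitNorm p a F π ^ n ≠ 1)
    -- the complex torus `A(ℂ)` with a polarization
    {W T : Type} [AddCommGroup W] [Module ℚ W] [AddCommGroup T] [Module ℂ T] (per : W →+ T)
    (ω₀ : W →ₗ[ℚ] W →ₗ[ℚ] ℚ) (hω₀ : IsHodgeBilinear per ω₀)
    -- the Tate module
    {V : Type} [AddCommGroup V] [Module ℚ_[ℓ] V] [FiniteDimensional ℚ_[ℓ] V] (comp : W →+ V)
    {Γ : Type} [Group Γ] (ρ : Representation ℚ_[ℓ] Γ V) (χ : Γ →* ℚ_[ℓ])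
    (ω : V →ₗ[ℚ_[ℓ]] V →ₗ[ℚ_[ℓ]] ℚ_[ℓ]) (halt : ∀ v, ω v v = 0)
    (hnondeg : ∀ u, (∀ v, ω v u = 0) → u = 0)
    (hω : ∀ s u v, ω (ρ s u) (ρ s v) = χ s * ω u v)
    (hωω : ∀ x y, ω (comp x) (comp y) = ((ω₀ x y : ℚ) : ℚ_[ℓ]))
    (hss : FiniteIndexSemisimple ρ) (hF : FaltingsEnd per comp ρ)
    (γ : Γ) (hχ : χ γ = (p : ℚ_[ℓ]) ^ a)
    (hγ : (ρ γ).charpoly = (minpoly ℚ π).map (algebraMap ℚ ℚ_[ℓ])) :
    MumfordTateStrong per comp ρ χ :=
  dominant_mumfordTate ℓ ha hint hgen hweil hslope hnorm per ω₀ hω₀ comp ρ χ ω halt hnondeg hω hωω
    hss hF γ hχ hγ

end Pool.Agent.Results.MP_de8692_ag.DominantSlope
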